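import Pool.Agent.N214.CP.Stm

set_option autoImplicit false

/-! Project CP (helper214), leaf SPAN (helper826). -/

namespace Pool.Agent.N826.CP

open Module

theorem SPAN : Pool.Agent.N214.CP.S_SPAN := by
  classical
  intro N _ I 𝒟 τ hfd
  -- a basis of the span from the family
  obtain ⟨κ, b, -, hspan, hli⟩ := exists_linearIndependent' N τ
  have hfin : Finite κ := by
    have h1 : LinearIndependent N (fun k : κ =>
        (⟨τ (b k), Submodule.subset_span ⟨b k, rfl⟩⟩ : Submodule.span N (Set.range τ))) := by
      refine LinearIndependent.of_comp (Submodule.span N (Set.range τ)).subtype ?_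
      exact hli
    exact h1.finite
  obtain ⟨e, ⟨eq⟩⟩ := Finite.exists_equiv_fin κ
  set h : Fin e → I := fun i => b (eq.symm i) with hh
  have hli2 : LinearIndependent N (fun i => τ (h i)) := hli.comp eq.symm eq.symm.injective
  have hr : Set.range (fun i => τ (h i)) = Set.range (τ ∘ b) := by
    ext x
    constructor
    · rintro ⟨i, rfl⟩
      exact ⟨eq.symm i, rfl⟩
    · rintro ⟨k, rfl⟩
      exact ⟨eq k, by simp [hh]⟩
  have hcoef : ∀ f : I, ∃ a : Fin e → N, ∑ i, a i • τ (h i) = τ f := by
    intro f
    refine (Submodule.mem_span_range_iff_exists_fun N).1 ?_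
    rw [hr, hspan]
    exact Submodule.subset_span ⟨f, rfl⟩
  choose a ha using hcoef
  -- the points
  set w : 𝒟 → Fin e → N := fun d i => τ (h i) d with hw
  have htop : Submodule.span N (Set.range w) = ⊤ := by
    by_contra hne
    obtain ⟨f, hf0, hf⟩ := Submodule.exists_le_ker_of_lt_top _ (lt_top_iff_ne_top.2 hne)
    apply hf0
    have h1 : ∀ d, ∑ i, f (Pi.single i 1) * τ (h i) d = 0 := by
      intro d
      have h2 : f (w d) = 0 := hf (Submodule.subset_span ⟨d, rfl⟩)
      rw [← h2, LinearMap.pi_apply_eq_sum_univ f (w d)]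
      refine Finset.sum_congr rfl fun i _ => ?_
      rw [smul_eq_mul, mul_comm]
      congr 2
      funext j
      rw [Pi.single_apply]
      by_cases hij : j = i
      · subst hij
        simp
      · rw [if_neg hij, if_neg (fun h => hij h.symm)]
    have h3 : ∑ i, f (Pi.single i 1) • τ (h i) = 0 := by
      funext d
      rw [Finset.sum_apply]
      exact h1 d
    have h4 := Fintype.linearIndependent_iff.1 hli2 _ h3
    refine LinearMap.pi_ext fun i x => ?_
    have h5 : (Pi.single i x : Fin e → N) = x • Pi.single i 1 := by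
      rw [← Pi.single_smul, smul_eq_mul, mul_one]
    rw [h5, map_smul, h4 i]
    simp
  obtain ⟨κ', b', -, hspan', hli'⟩ := exists_linearIndependent' N w
  have hfin' : Finite κ' := hli'.finite
  have := Fintype.ofFinite κ'
  have hcard : Fintype.card κ' = e := by
    have h1 : (⊤ : Submodule N (Fin e → N)) ≤ Submodule.span N (Set.range (w ∘ b')) := by
      rw [hspan', htop]
    have h2 := finrank_eq_card_basis (Basis.mk hli' h1)
    rw [finrank_fin_fun] at h2
    exact h2.symm
  let eq' : κ' ≃ Fin e := Fintype.equivFinOfCardEq hcard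
  refine ⟨e, h, a, fun j => b' (eq'.symm j), fun f d => ?_, ?_⟩
  · have h1 := congrFun (ha f) d
    rw [Finset.sum_apply] at h1
    rw [← h1]
    rfl
  · have hli3 : LinearIndependent N (fun j : Fin e => w (b' (eq'.symm j))) :=
      hli'.comp eq'.symm eq'.symm.injective
    set M : Matrix (Fin e) (Fin e) N := Matrix.of fun j i => τ (h i) (b' (eq'.symm j)) with hM
    have hu : IsUnit M := by
      rw [← Matrix.linearIndependent_rows_iff_isUnit]
      exact hli3
    have hdet : M.det ≠ 0 := ((Matrix.isUnit_iff_isUnit_det M).1 hu).ne_zero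
    have e2 : (Matrix.of fun i j => τ (h i) (b' (eq'.symm j)) : Matrix (Fin e) (Fin e) N) =
        M.transpose := by
      ext i j
      rfl
    rw [e2, Matrix.det_transpose]
    exact hdet

end Pool.Agent.N826.CP
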